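import Mathlib

/-!
# Few relations with few terms: statements

Project of helper76 for MP_a2f59b_nt (arithmetic nature of `π + e`, `π e`, …, very famous).

Aim: for all `n`, `m` there is `B` such that for ALL complex numbers `z_1, …, z_n` there are, up to
common factors and algebraic factors of the terms, at most `B` minimal relations with `m` terms and with
algebraic coefficients among the numbers `exp (r_1 z_1 + ⋯ + r_n z_n + β)`, `r_j` rational, `β` algebraic.

Pieces (independent of each other): `LogStm` (L), `LogStm → AxStm` (X), `MaxStm` (M), `UltStm` (U).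
helper76 proves the theorem from `AxStm`, `MaxStm`, `UltStm`.

Notation: `M (.ofAdd g)`, for `M : Multiplicative G →* C`, is a number `≠ 0` (its inverse is
`M (.ofAdd (-g))`).
-/

set_option autoImplicit false

namespace Pool.Agent.W2helper76.FR

/-- the numbers `M (v i)` satisfy a linear relation over `κ`, and no proper subset of them does -/
def Circuit (κ : Type) {C G : Type} [Field κ] [Field C] [Algebra κ C] [AddCommGroup G]
    (M : Multiplicative G →* C) {m : ℕ} (v : Fin m → G) : Prop :=
  ¬ LinearIndependent κ (fun i => M (Multiplicative.ofAdd (v i))) ∧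
    ∀ j, LinearIndependent κ (fun i : {i : Fin m // i ≠ j} => M (Multiplicative.ofAdd (v i)))

/-- the field of the algebraic numbers -/
noncomputable abbrev QB : IntermediateField ℚ ℂ := algebraicClosure ℚ ℂ

/-- the numbers `exp (r_1 z_1 + ⋯ + r_n z_n + β)` -/
noncomputable def Mz {n : ℕ} (z : Fin n → ℂ) : Multiplicative ((Fin n → ℚ) × QB) →* ℂ where
  toFun g := Complex.exp (∑ j, (((Multiplicative.toAdd g).1 j : ℚ) : ℂ) * z j +
    ((Multiplicative.toAdd g).2 : ℂ))
  map_one' := by simp
  map_mul' a b := by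
    rw [← Complex.exp_add]
    congr 1
    rw [toAdd_mul, Prod.fst_add, Prod.snd_add]
    push_cast
    have h : ∀ j, (((Multiplicative.toAdd a).1 + (Multiplicative.toAdd b).1) j : ℚ) =
        (Multiplicative.toAdd a).1 j + (Multiplicative.toAdd b).1 j := fun j => rfl
    simp only [h, Rat.cast_add, add_mul, Finset.sum_add_distrib]
    ring

/-! ### Piece L: logarithmic derivatives (Rosenlicht, Ax)

Choose a `ℚ`-basis of the `ℚ`-span of the `c i` in `κ`: `N c_i = ∑ l, m_il e_l` with a positive integer
`N` and integers `m_il`, the `e_l` linearly independent over `ℚ`; some row `(m_il)_i`, `l = l₀`, is not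
zero. With `Y_l = ∏ i, y i ^ m_il` we have `∑ l, e_l * (D Y_l / Y_l) = 0` for all `D`. Suppose that
`Y = Y_{l₀}` is not in `κ`. As `κ` is algebraically closed, `Y` is transcendental over `κ`, and there is
an intermediate field `K₁` such that `Y` is transcendental over `K₁` and `C` is algebraic over `K₁(Y)`,
and a derivation `D` over `K₁` with `D Y = 1`. Taking norms to `K₁(Y)` and residues at `0` one gets
integers `n_l` with `∑ l, e_l * n_l = 0` and `n_{l₀} > 0`, a contradiction.

All of this is in `Pool/Agent/TH813/Ros.lean` (`norms`, `conj_sum`, `rat_rel`, `zero_rel`,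
`exists_setup`), for `C = ℂ`; the proofs only use that `ℂ` is algebraically closed of characteristic
zero. -/

def LogStm : Prop :=
  ∀ (κ C : Type) [Field κ] [Field C] [Algebra κ C] [CharZero κ] [IsAlgClosed κ] [IsAlgClosed C]
    (t : ℕ) (y : Fin t → C), (∀ i, y i ≠ 0) → ∀ c : Fin t → κ, c ≠ 0 →
    (∀ D : Derivation κ C C, ∑ i, algebraMap κ C (c i) * (D (y i) / y i) = 0) →
    ∃ (m : Fin t → ℤ) (a : κ), m ≠ 0 ∧ ∏ i, y i ^ m i = algebraMap κ C a

/-! ### Piece X: a theorem of Ax type (prove `LogStm → AxStm`)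

For `D : Derivation κ C C` put `ω_i(D) = D (y i) / y i`. Let

  `A = {a : Fin t → C | ∀ D, ∑ i, a i * ω_i(D) = 0}` (all `D : Derivation κ C C`),
  `B = {a : Fin t → C | ∀ j, ∑ i, a i * r i j = 0, ∀ l, ∑ i, a i * q i l = 0}`.

1. `A ∩ B` is stable under all `D ∈ Δ` (coordinatewise). Let `a ∈ A ∩ B`. `D a ∈ B` because `r`, `q` are
   constants. Let `∂` be any derivation. Apply `D` to `∑ a_i ω_i(∂) = 0`:
   `∑ D(a_i) ω_i(∂) = - ∑ a_i D(ω_i(∂))`. One computes `D(ω_i(∂)) = ∂(ω_i(D)) + ω_i(⁅D, ∂⁆)`, so
   `∑ a_i D(ω_i(∂)) = ∑ a_i ∂(ω_i(D))` (as `a ∈ A`), and this is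
   `∑_j (∑_i a_i r_ij) ∂(lam j D) + ∑_l (∑_i a_i q_il) ∂(mu l D) = 0` (as `a ∈ B`).
2. If a nonzero subspace of `C ^ t` is stable under `Δ`, it contains a nonzero vector of constants
   (elements of `κ`): take a nonzero element with minimal support and one coordinate `1`; its
   derivatives have smaller support, so they vanish. For `A ∩ B` this contradicts `LogStm`. So
   `A ∩ B = 0`.
3. The map `A → C ^ n`, `a ↦ (∑_i a_i r_ij)_j` is injective: let `a` be in the kernel and
   `b_l = ∑_i a_i q_il`. For `D ∈ Δ`, `0 = ∑ a_i ω_i(D) = ∑_l b_l mu l D`; the derivation of the last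
   hypothesis gives `b_l = 0`. So `a ∈ A ∩ B = 0`. Hence `dim A ≤ n`.
4. Let `I` be a maximal subset of `Fin t` such that the `y i`, `i ∈ I`, are algebraically independent
   over `κ`. A derivation which kills all `y i`, `i ∈ I`, kills all `y i`. So the `C`-space
   `S = {(ω_i(D))_i | D}` has dimension at most `I.card` and `dim A = t - dim S ≥ t - I.card`. -/

def AxStm : Prop :=
  ∀ (κ C : Type) [Field κ] [Field C] [Algebra κ C] [CharZero κ] [IsAlgClosed κ] [IsAlgClosed C]
    (Δ : Set (Derivation κ C C)),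
    (∀ x : C, (∀ D ∈ Δ, D x = 0) → ∃ a : κ, x = algebraMap κ C a) →
    ∀ (t n s : ℕ) (y : Fin t → C), (∀ i, y i ≠ 0) →
    (∀ (m : Fin t → ℤ) (a : κ), ∏ i, y i ^ m i = algebraMap κ C a → m = 0) →
    ∀ (r : Fin t → Fin n → κ) (q : Fin t → Fin s → κ) (lam : Fin n → Derivation κ C C → C)
      (mu : Fin s → Derivation κ C C → C),
    (∀ D ∈ Δ, ∀ i, D (y i) / y i =
      ∑ j, algebraMap κ C (r i j) * lam j D + ∑ l, algebraMap κ C (q i l) * mu l D) →
    (∀ l, ∃ D ∈ Δ, ∀ l', mu l' D = if l' = l then 1 else 0) →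
    ∃ I : Finset (Fin t), t ≤ I.card + n ∧ AlgebraicIndependent κ (fun i : I => y i)

/-! ### Piece M: the subspace of maximal deficiency

For `d : ℕ` let `P(d)` be: there are `t` and `g : Fin t → G`, linearly independent over `ℚ`, such that
`I.card + d ≤ t` for all `I` for which the `M (g i)`, `i ∈ I`, are algebraically independent over `κ`.
`P(0)` is true and `P(d)` is false for `d > n`. Let `d` be maximal with `P(d)` and `g : Fin t → G` a
witness, `W = span ℚ (range g)`. Let `I` be a maximal independent set and let `K₀` be the algebraic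
closure in `C` of `κ(M (g i), i ∈ I)`; it contains `M w` for all `w ∈ W` (a power of `M w` is a monomial
in the `M (g i)`).

1. If `u_1, …, u_s` are linearly independent modulo `W` then `M u_1, …, M u_s` are algebraically
   independent over `K₀`. Otherwise some `M u_l` is algebraic over `K₀(M u_k, k ≠ l)`. Then the field
   generated by all `M (g i)`, `M u_k` has transcendence degree at most `I.card + s - 1 ≤ t - d + s - 1`
   over `κ`, so `g ⊔ u` shows `P(d + 1)`.
2. Let `v` be a circuit, `∑ c_i M (v i) = 0` with `c_i` in `κ`, all `c_i ≠ 0`. Multiply by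
   `M (- v i₀)`: we may assume `v i₀ = 0`. Choose `u_1, …, u_s`, linearly independent modulo `W`, such
   that `v i = w_i + ∑ k, q_ik u_k` with `w_i ∈ W` and integers `q_ik` (divide the `u_k` by a common
   denominator). Then `0 = ∑_i c_i M (w_i) ∏ k, (M u_k) ^ q_ik` and by 1. the sum over the `i` with
   given exponents `(q_ik)_k` vanishes. By minimality of the circuit all `i` have the same exponents,
   which are those of `i₀`, namely `0`; so `v i ∈ W`. -/

def MaxStm : Prop :=
  ∀ (κ C G : Type) [Field κ] [Field C] [Algebra κ C] [CharZero κ] [AddCommGroup G] [Module ℚ G]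
    (M : Multiplicative G →* C) (n : ℕ),
    (∀ (t : ℕ) (g : Fin t → G), LinearIndependent ℚ g → ∃ I : Finset (Fin t), t ≤ I.card + n ∧
      AlgebraicIndependent κ (fun i : I => M (Multiplicative.ofAdd (g i)))) →
    ∃ W : Submodule ℚ G, FiniteDimensional ℚ W ∧
      ∀ (m : ℕ) (v : Fin m → G), Circuit κ M v → ∀ i j, v i - v j ∈ W

/-! ### Piece U: the ultraproduct

`U` is a nonprincipal ultrafilter on `ℕ` (`Filter.hyperfilter ℕ`), `κ`, `C`, `G` are the ultrapowers
(`Filter.Germ`) of `QB`, `ℂ`, `(Fin n → ℚ) × QB`; `π g` is the class of `g` and `M (π g)` is the class of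
`k ↦ Mz (z k) (g k)`. A library for ultrapowers of fields (`pr`, `pr_eq`, `pr_sum`, `gm`, `closed`:
algebraically closed) is in `Pool/Agent/NH29/GN/Stb.lean`; see also `Pool/Agent/W2helper3/UE/Ultra.lean`.

* Circuits: Łoś.
* The next property: an index function `e : ℕ → Fin m` is constant on a set of `U`.
* Constants: if the class of `k ↦ Mz (z k) (g k)` is in `κ`, then `Mz (z k) (g k)` is algebraic for all
  `k` in a set of `U`, which contains arbitrarily large `k`.
* `Δ` is the set of the derivations of the form `class of x ↦ class of (k ↦ D_k (x k))`, where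
  `D_k : Derivation QB ℂ ℂ`. If the class of `x` is not in `κ` then `x k` is transcendental for almost all
  `k` and there are derivations `D_k` with `D_k (x k) = 1` (`Pool.Agent.H135R2.VS.exists_der`).
* Let `g i` be the class of `k ↦ (r_i k, β_i k)`. For every `k` there is a set of indices `I_k` such that
  the `β_l k`, `l ∈ I_k`, are a basis of the `ℚ`-span of the `β_i k`; for almost all `k` it is the same set
  `I`, `s = I.card`. Then `β_i k = ∑ l, q_il k * β_l k`. `lam j D = D Z_j / Z_j`, where `Z_j` is the class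
  of `k ↦ exp (z k j)`, and `mu l D = D E_l / E_l`, where `E_l` is the class of `k ↦ exp (β_l k)`. The
  formula follows from `D (exp (q x)) / exp (q x) = q * (D (exp x) / exp x)` for rational `q`. By the theorem
  of Lindemann and Weierstrass (`Pool.Agent.H297R2.exp_algebraicIndependent`) the `exp (β_l k)`, `l ∈ I`,
  are algebraically independent over `QB`, so there are derivations with arbitrary values at them. -/

def UltStm : Prop :=
  ∀ (n : ℕ) (z : ℕ → Fin n → ℂ), ∃ (κ C G : Type) (_ : Field κ) (_ : Field C) (_ : Algebra κ C)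
    (_ : CharZero κ) (_ : IsAlgClosed κ) (_ : IsAlgClosed C) (_ : AddCommGroup G) (_ : Module ℚ G)
    (M : Multiplicative G →* C) (π : (ℕ → (Fin n → ℚ) × QB) →ₗ[ℚ] G) (Δ : Set (Derivation κ C C)),
    Function.Surjective π ∧
    (∀ (m : ℕ) (v : ℕ → Fin m → (Fin n → ℚ) × QB), (∀ k, Circuit QB (Mz (z k)) (v k)) →
      Circuit κ M (fun i => π (fun k => v k i))) ∧
    (∀ (m : ℕ) (v : ℕ → Fin m → (Fin n → ℚ) × QB) (e : ℕ → Fin m), ∃ i,
      π (fun k => v k (e k)) = π (fun k => v k i)) ∧
    (∀ g, (∃ a : κ, M (Multiplicative.ofAdd (π g)) = algebraMap κ C a) →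
      ∀ K : ℕ, ∃ k ≥ K, IsAlgebraic ℚ (Mz (z k) (Multiplicative.ofAdd (g k)))) ∧
    (∀ x : C, (∀ D ∈ Δ, D x = 0) → ∃ a : κ, x = algebraMap κ C a) ∧
    ∀ (t : ℕ) (g : Fin t → G), ∃ (s : ℕ) (r : Fin t → Fin n → κ) (q : Fin t → Fin s → κ)
      (lam : Fin n → Derivation κ C C → C) (mu : Fin s → Derivation κ C C → C),
      (∀ D ∈ Δ, ∀ i, D (M (Multiplicative.ofAdd (g i))) / M (Multiplicative.ofAdd (g i)) =
        ∑ j, algebraMap κ C (r i j) * lam j D + ∑ l, algebraMap κ C (q i l) * mu l D) ∧
      ∀ l, ∃ D ∈ Δ, ∀ l', mu l' D = if l' = l then 1 else 0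

/-! ### The theorem (helper76) -/

def BoundStm : Prop :=
  ∀ n m : ℕ, ∃ B : ℕ, ∀ z : Fin n → ℂ, ∃ T : Finset ((Fin n → ℚ) × QB), T.card ≤ B ∧
    ∀ v : Fin m → (Fin n → ℚ) × QB, Circuit QB (Mz z) v → ∀ i j, ∃ d ∈ T,
      IsAlgebraic ℚ (Mz z (Multiplicative.ofAdd (v i - v j - d)))

end Pool.Agent.W2helper76.FR
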