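import Pool.Agent.W2helper76.FR.Main

/-!
# Few relations with few terms: relations up to common factors
-/

set_option autoImplicit false

namespace Pool.Agent.W2helper76.FR

/-- at most `B` relations with `m` terms up to common factors and algebraic factors of the terms -/
def RelStm : Prop :=
  ∀ n m : ℕ, ∃ B : ℕ, ∀ z : Fin n → ℂ, ∃ T : Finset (Fin m → (Fin n → ℚ) × QB), T.card ≤ B ∧
    (∀ w ∈ T, Circuit QB (Mz z) w) ∧
    ∀ v : Fin m → (Fin n → ℚ) × QB, Circuit QB (Mz z) v → ∃ w ∈ T, ∃ g, ∀ i,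
      IsAlgebraic ℚ (Mz z (Multiplicative.ofAdd (v i - w i - g)))

theorem rels (h : BoundStm) : RelStm := by
  classical
  intro n m
  obtain ⟨B, hB⟩ := h n m
  refine ⟨B ^ m, fun z => ?_⟩
  obtain ⟨T₀, hT₀, hT⟩ := hB z
  rcases Nat.eq_zero_or_pos m with rfl | hm
  · refine ⟨∅, by simp, by simp, fun v hv => ?_⟩
    exact absurd (linearIndependent_empty_type (ι := Fin 0)) hv.1
  let i₀ : Fin m := ⟨0, hm⟩
  have hex : ∀ v : Fin m → (Fin n → ℚ) × QB, Circuit QB (Mz z) v → ∃ f : Fin m → T₀, ∀ i,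
      IsAlgebraic ℚ (Mz z (Multiplicative.ofAdd (v i - v i₀ - f i))) := by
    intro v hv
    choose f hf1 hf2 using fun i => hT v hv i i₀
    exact ⟨fun i => ⟨f i, hf1 i⟩, hf2⟩
  let P : (Fin m → T₀) → Prop := fun f => ∃ v : Fin m → (Fin n → ℚ) × QB, Circuit QB (Mz z) v ∧
    ∀ i, IsAlgebraic ℚ (Mz z (Multiplicative.ofAdd (v i - v i₀ - f i)))
  let rep : (Fin m → T₀) → Fin m → (Fin n → ℚ) × QB := fun f =>
    if h : P f then h.choose else 0
  have hrep : ∀ f, P f → Circuit QB (Mz z) (rep f) ∧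
      ∀ i, IsAlgebraic ℚ (Mz z (Multiplicative.ofAdd (rep f i - rep f i₀ - f i))) := by
    intro f hf
    have h1 : rep f = hf.choose := dif_pos hf
    rw [h1]
    exact hf.choose_spec
  refine ⟨(Finset.univ.filter P).image rep, ?_, ?_, ?_⟩
  · refine Finset.card_image_le.trans ((Finset.card_filter_le _ _).trans ?_)
    rw [Finset.card_univ, Fintype.card_fun, Fintype.card_fin, Fintype.card_coe]
    exact Nat.pow_le_pow_left hT₀ m
  · intro w hw
    obtain ⟨f, hf, rfl⟩ := Finset.mem_image.1 hw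
    exact (hrep f (Finset.mem_filter.1 hf).2).1
  · intro v hv
    obtain ⟨f, hf⟩ := hex v hv
    have hPf : P f := ⟨v, hv, hf⟩
    refine ⟨rep f, Finset.mem_image.2 ⟨f, Finset.mem_filter.2 ⟨Finset.mem_univ _, hPf⟩, rfl⟩,
      v i₀ - rep f i₀, fun i => ?_⟩
    have h1 := alg_sub (a := v i - v i₀) (b := rep f i - rep f i₀) (hf i) ((hrep f hPf).2 i)
    convert h1 using 3
    abel

/-- the sums which are algebraic -/
def SumStm : Prop :=
  ∀ n m : ℕ, ∃ B : ℕ, ∀ z : Fin n → ℂ, ∃ T : Finset (Fin m → (Fin n → ℚ) × QB), T.card ≤ B ∧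
    (∀ w ∈ T, Circuit QB (Mz z) (Fin.cons 0 w : Fin (m + 1) → (Fin n → ℚ) × QB)) ∧
    ∀ v : Fin m → (Fin n → ℚ) × QB,
      Circuit QB (Mz z) (Fin.cons 0 v : Fin (m + 1) → (Fin n → ℚ) × QB) → ∃ w ∈ T, ∀ i,
      IsAlgebraic ℚ (Mz z (Multiplicative.ofAdd (v i - w i)))

theorem circuit_sub {κ C G : Type} [Field κ] [Field C] [Algebra κ C] [AddCommGroup G]
    {M : Multiplicative G →* C} {m : ℕ} {v : Fin m → G} (h : Circuit κ M v) (g : G) :
    Circuit κ M (fun i => v i - g) := by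
  have h0 : M (.ofAdd g) ≠ 0 := M_ne g
  have key : ∀ {ι : Type} (u : ι → C), LinearIndependent κ u ↔
      LinearIndependent κ (fun i => u i / M (.ofAdd g)) := by
    intro ι u
    let e : C ≃ₗ[κ] C := LinearEquiv.ofLinear
      (LinearMap.mulRight κ (M (.ofAdd g))⁻¹) (LinearMap.mulRight κ (M (.ofAdd g)))
      (by ext x; simp [h0]) (by ext x; simp [h0])
    have h1 : (fun i => u i / M (.ofAdd g)) = e ∘ u := by
      funext i
      simp [e, div_eq_mul_inv]
    rw [h1]
    exact (LinearMap.linearIndependent_iff e.toLinearMap (LinearEquiv.ker e)).symm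
  constructor
  · intro h1
    apply h.1
    rw [key]
    convert h1 using 1
    funext i
    rw [M_sub]
  · intro j
    have h1 := h.2 j
    rw [key] at h1
    convert h1 using 1
    funext i
    rw [M_sub]

theorem sums (h : RelStm) : SumStm := by
  classical
  intro n m
  obtain ⟨B, hB⟩ := h n (m + 1)
  refine ⟨B, fun z => ?_⟩
  obtain ⟨T, hT1, hT2, hT3⟩ := hB z
  refine ⟨T.image (fun w i => w (Fin.succ i) - w 0), Finset.card_image_le.trans hT1, ?_, ?_⟩
  · intro w hw
    obtain ⟨w', hw', rfl⟩ := Finset.mem_image.1 hw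
    have h1 := circuit_sub (hT2 w' hw') (w' 0)
    convert h1 using 1
    funext i
    refine Fin.cases ?_ (fun i => ?_) i
    · rw [Fin.cons_zero, sub_self]
    · rw [Fin.cons_succ]
  · intro v hv
    obtain ⟨w, hw, g, hg⟩ := hT3 _ hv
    refine ⟨_, Finset.mem_image.2 ⟨w, hw, rfl⟩, fun i => ?_⟩
    have h1 := hg 0
    have h2 := hg (Fin.succ i)
    rw [Fin.cons_zero] at h1
    rw [Fin.cons_succ] at h2
    have h3 : IsAlgebraic ℚ (Mz z (.ofAdd (v i - w (Fin.succ i) - (0 - w 0)))) := by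
      apply alg_sub (c := g)
      · exact h2
      · exact h1
    convert h3 using 3
    abel

end Pool.Agent.W2helper76.FR
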