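import Pool.Agent.W2helper76.FR.Stm

/-!
# Few relations with few terms: the theorem
-/

set_option autoImplicit false

namespace Pool.Agent.W2helper76.FR

open Module

section

variable {κ C G : Type} [Field κ] [Field C] [Algebra κ C] [AddCommGroup G]

theorem M_ne {M : Multiplicative G →* C} (g : G) : M (.ofAdd g) ≠ 0 := by
  intro h
  have h1 : M (.ofAdd g) * M (.ofAdd (-g)) = 1 := by
    rw [← map_mul, ← ofAdd_add, add_neg_cancel, ofAdd_zero, map_one]
  rw [h, zero_mul] at h1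
  exact zero_ne_one h1

theorem M_sub {M : Multiplicative G →* C} (g h : G) :
    M (.ofAdd (g - h)) = M (.ofAdd g) / M (.ofAdd h) := by
  rw [eq_div_iff (M_ne h), ← map_mul, ← ofAdd_add, sub_add_cancel]

/-- terms which are proportional over the constants -/
theorem Circuit.congr {G' : Type} [AddCommGroup G'] {M : Multiplicative G →* C}
    {M' : Multiplicative G' →* C} {m : ℕ} {v : Fin m → G} {v' : Fin m → G'}
    (h : Circuit κ M v) (a : Fin m → κ) (ha : ∀ i, a i ≠ 0)
    (hv : ∀ i, M' (.ofAdd (v' i)) = a i • M (.ofAdd (v i))) : Circuit κ M' v' := by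
  constructor
  · intro hli
    apply h.1
    have h1 := hli.units_smul (fun i => (Units.mk0 (a i) (ha i))⁻¹)
    convert h1 using 1
    funext i
    change _ = (Units.mk0 (a i) (ha i))⁻¹ • M' (.ofAdd (v' i))
    rw [hv, Units.smul_def, smul_smul, Units.val_inv_eq_inv_val, Units.val_mk0,
      inv_mul_cancel₀ (ha i), one_smul]
  · intro j
    have h1 := (h.2 j).units_smul (fun i => Units.mk0 (a i) (ha i))
    convert h1 using 1
    funext i
    change _ = (Units.mk0 (a i) (ha i)) • M (.ofAdd (v i))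
    rw [hv, Units.smul_def, Units.val_mk0]

theorem mem_range_of_alg [IsAlgClosed κ] {x : C} (hx : IsAlgebraic κ x) :
    ∃ a : κ, x = algebraMap κ C a := by
  have h := IsAlgClosed.degree_eq_one_of_irreducible κ (minpoly.irreducible hx.isIntegral)
  obtain ⟨a, ha⟩ := minpoly.mem_range_of_degree_eq_one κ x h
  exact ⟨a, ha.symm⟩

/-- the elements with constant value -/
def NN (κ : Type) {C G : Type} [Field κ] [IsAlgClosed κ] [Field C] [Algebra κ C] [AddCommGroup G]
    [Module ℚ G] (M : Multiplicative G →* C) : Submodule ℚ G where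
  carrier := {g | ∃ a : κ, M (.ofAdd g) = algebraMap κ C a}
  zero_mem' := ⟨1, by rw [ofAdd_zero, map_one, map_one]⟩
  add_mem' := by
    rintro g h ⟨a, ha⟩ ⟨b, hb⟩
    exact ⟨a * b, by rw [ofAdd_add, map_mul, map_mul, ha, hb]⟩
  smul_mem' := by
    rintro q g ⟨a, ha⟩
    apply mem_range_of_alg
    have h1 : M (.ofAdd (q • g)) ^ q.den = algebraMap κ C (a ^ q.num) := by
      rw [← map_pow, ← ofAdd_nsmul, map_zpow₀, ← ha, ← map_zpow, ← ofAdd_zsmul]
      congr 2
      rw [← Nat.cast_smul_eq_nsmul ℚ, ← Int.cast_smul_eq_zsmul ℚ, smul_smul, Rat.den_mul_eq_num]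
    have h2 : IsAlgebraic κ (M (.ofAdd (q • g)) ^ q.den) := by
      rw [h1]
      exact isAlgebraic_algebraMap _
    exact h2.of_pow q.den_pos

end

/-- the difference of two elements of a circuit -/
def Df {n : ℕ} (m : ℕ) (z : Fin n → ℂ) (d : (Fin n → ℚ) × QB) : Prop :=
  ∃ v : Fin m → (Fin n → ℚ) × QB, Circuit QB (Mz z) v ∧ ∃ i j, d = v i - v j

theorem alg_symm {n : ℕ} {z : Fin n → ℂ} {a b : (Fin n → ℚ) × QB}
    (h : IsAlgebraic ℚ (Mz z (.ofAdd (a - b)))) : IsAlgebraic ℚ (Mz z (.ofAdd (b - a))) := by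
  have h1 : Mz z (.ofAdd (b - a)) = (Mz z (.ofAdd (a - b)))⁻¹ := by
    rw [M_sub, M_sub, inv_div]
  rw [h1]
  exact h.inv

theorem alg_sub {n : ℕ} {z : Fin n → ℂ} {a b c : (Fin n → ℚ) × QB}
    (h : IsAlgebraic ℚ (Mz z (.ofAdd (a - c)))) (h' : IsAlgebraic ℚ (Mz z (.ofAdd (b - c)))) :
    IsAlgebraic ℚ (Mz z (.ofAdd (a - b))) := by
  have h1 : Mz z (.ofAdd (a - b)) = Mz z (.ofAdd (a - c)) * (Mz z (.ofAdd (b - c)))⁻¹ := by
    rw [M_sub, M_sub, M_sub]
    have := M_ne (M := Mz z) b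
    have := M_ne (M := Mz z) c
    field_simp
  rw [h1]
  exact h.mul h'.inv

/-- many incongruent differences -/
theorem many {n m k : ℕ} {z : Fin n → ℂ}
    (hz : ∀ T : Finset ((Fin n → ℚ) × QB), T.card ≤ k → ∃ v : Fin m → (Fin n → ℚ) × QB,
      Circuit QB (Mz z) v ∧ ∃ i j, ∀ d ∈ T, ¬ IsAlgebraic ℚ (Mz z (.ofAdd (v i - v j - d)))) :
    ∀ p ≤ k + 1, ∃ S : Finset ((Fin n → ℚ) × QB), S.card = p ∧ (∀ d ∈ S, Df m z d) ∧
      ∀ a ∈ S, ∀ b ∈ S, a ≠ b → ¬ IsAlgebraic ℚ (Mz z (.ofAdd (a - b))) := by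
  classical
  intro p
  induction p with
  | zero => exact fun _ => ⟨∅, rfl, by simp, by simp⟩
  | succ p ih =>
    intro hp
    obtain ⟨S, h1, h2, h3⟩ := ih (by omega)
    obtain ⟨v, hv, i, j, hij⟩ := hz S (by omega)
    have hnot : v i - v j ∉ S := by
      intro hmem
      apply hij _ hmem
      rw [sub_self, ofAdd_zero, map_one]
      exact isAlgebraic_one
    refine ⟨insert (v i - v j) S, ?_, ?_, ?_⟩
    · rw [Finset.card_insert_of_notMem hnot, h1]
    · intro d hd
      rcases Finset.mem_insert.1 hd with rfl | hd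
      · exact ⟨v, hv, i, j, rfl⟩
      · exact h2 d hd
    · intro a ha b hb hab
      rcases Finset.mem_insert.1 ha with rfl | ha
      · rcases Finset.mem_insert.1 hb with rfl | hb
        · exact absurd rfl hab
        · exact hij b hb
      · rcases Finset.mem_insert.1 hb with rfl | hb
        · exact fun h => hij a ha (alg_symm h)
        · exact h3 a ha b hb hab

/-- The differences of circuits lie, up to constants, in a finite dimensional space. -/
theorem core (hX : AxStm) (hM : MaxStm) (hU : UltStm) (n : ℕ) (z : ℕ → Fin n → ℂ) :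
    ∃ (G : Type) (_ : AddCommGroup G) (_ : Module ℚ G) (π : (ℕ → (Fin n → ℚ) × QB) →ₗ[ℚ] G)
      (N W : Submodule ℚ G), Function.Surjective π ∧ FiniteDimensional ℚ W ∧
      (∀ (m : ℕ) (v : ℕ → Fin m → (Fin n → ℚ) × QB) (i j : ℕ → Fin m),
        (∀ k, Circuit QB (Mz (z k)) (v k)) →
        ∃ w ∈ W, π (fun k => v k (i k)) - π (fun k => v k (j k)) - w ∈ N) ∧
      ∀ g, π g ∈ N → ∀ K : ℕ, ∃ k ≥ K, IsAlgebraic ℚ (Mz (z k) (Multiplicative.ofAdd (g k))) := by
  classical
  -- the ultraproduct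
  obtain ⟨κ, C, G, _, _, _, _, _, _, _, _, M, π, Δ, hπ, hcirc, hidx, hconst, hker, hrep⟩ := hU n z
  obtain ⟨G', hG'⟩ := (NN κ M).exists_isCompl
  let M' : Multiplicative G' →* C := M.comp (AddMonoidHom.toMultiplicative G'.subtype.toAddMonoidHom)
  have hM' : ∀ g : G', M' (.ofAdd g) = M (.ofAdd (g : G)) := fun g => rfl
  obtain ⟨W, hWfin, hW⟩ := hM κ C G' M' n (by
    intro t g hg
    obtain ⟨s, r, q, lam, mu, h1, h2⟩ := hrep t (fun i => (g i : G))
    refine hX κ C Δ hker t n s (fun i => M' (.ofAdd (g i))) (fun i => M_ne _) ?_ r q lam mu h1 h2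
    intro e a he
    have h3 : ((∑ i, (e i : ℚ) • g i : G') : G) ∈ NN κ M := by
      refine ⟨a, ?_⟩
      rw [← he, ← hM']
      have h4 : ∀ i, M' (.ofAdd (g i)) ^ e i = M' (.ofAdd ((e i : ℚ) • g i)) := by
        intro i
        rw [← map_zpow, ← ofAdd_zsmul, Int.cast_smul_eq_zsmul]
      rw [ofAdd_sum, map_prod]
      exact Finset.prod_congr rfl fun i _ => (h4 i).symm
    have h5 : (∑ i, (e i : ℚ) • g i : G') = 0 := by
      apply Subtype.ext
      have := hG'.disjoint.le_bot (x := ((∑ i, (e i : ℚ) • g i : G') : G)) ⟨h3, Subtype.prop _⟩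
      exact (Submodule.mem_bot ℚ).1 this
    funext i
    have h6 := Fintype.linearIndependent_iff.1 hg (fun i => (e i : ℚ)) h5 i
    exact_mod_cast h6)
  refine ⟨G, inferInstance, inferInstance, π, NN κ M, W.map G'.subtype, hπ, inferInstance, ?_, ?_⟩
  · intro m v i j hv
    obtain ⟨i₀, hi₀⟩ := hidx m v i
    obtain ⟨j₀, hj₀⟩ := hidx m v j
    have hc := hcirc m v hv
    rw [hi₀, hj₀]
    have hdec : ∀ g : G, ∃ (a : G) (b : G'), a ∈ NN κ M ∧ a + b = g := by
      intro g
      have h1 : g ∈ NN κ M ⊔ G' := by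
        rw [hG'.sup_eq_top]
        exact Submodule.mem_top
      obtain ⟨a, ha, b, hb, hab⟩ := Submodule.mem_sup.1 h1
      exact ⟨a, ⟨b, hb⟩, ha, hab⟩
    choose a b ha hab using fun i => hdec (π (fun k => v k i))
    choose c hc' using ha
    have hc0 : ∀ i, c i ≠ 0 := by
      intro i h
      have := hc' i
      rw [h, map_zero] at this
      exact M_ne _ this
    have h2 : Circuit κ M' b := by
      refine hc.congr (fun i => (c i)⁻¹) (fun i => inv_ne_zero (hc0 i)) fun i => ?_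
      rw [hM', ← hab i, ofAdd_add, map_mul, hc', Algebra.smul_def, map_inv₀, ← mul_assoc,
        inv_mul_cancel₀, one_mul]
      rw [← hc']
      exact M_ne _
    refine ⟨_, Submodule.mem_map_of_mem (hW m b h2 i₀ j₀), ?_⟩
    have h3 : π (fun k => v k i₀) - π (fun k => v k j₀) - G'.subtype (b i₀ - b j₀) =
        a i₀ - a j₀ := by
      rw [← hab i₀, ← hab j₀, map_sub, Submodule.subtype_apply, Submodule.subtype_apply]
      abel
    rw [h3]
    exact sub_mem ⟨c i₀, hc' i₀⟩ ⟨c j₀, hc' j₀⟩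
  · intro g hg
    exact hconst g hg

/-- For every `z` the differences of all circuits lie, up to algebraic factors, in a finite
dimensional space. -/
def DimStm : Prop :=
  ∀ (n : ℕ) (z : Fin n → ℂ), ∃ W : Submodule ℚ ((Fin n → ℚ) × QB), FiniteDimensional ℚ W ∧
    ∀ (m : ℕ) (v : Fin m → (Fin n → ℚ) × QB), Circuit QB (Mz z) v → ∀ i j, ∃ w ∈ W,
      IsAlgebraic ℚ (Mz z (Multiplicative.ofAdd (v i - v j - w)))

theorem dimt (hX : AxStm) (hM : MaxStm) (hU : UltStm) : DimStm := by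
  classical
  intro n z
  obtain ⟨G, _, _, π, N, W, hπ, hWfin, h1, h2⟩ := core hX hM hU n (fun _ => z)
  let L : (Fin n → ℚ) × QB →ₗ[ℚ] G := π ∘ₗ LinearMap.pi (fun _ => LinearMap.id)
  have hL : ∀ g, L g = π (fun _ => g) := fun g => rfl
  let p : (Fin n → ℚ) × QB →ₗ[ℚ] (G ⧸ N) := N.mkQ ∘ₗ L
  obtain ⟨K', hK'⟩ := (LinearMap.ker p).exists_isCompl
  let W₁ : Submodule ℚ ((Fin n → ℚ) × QB) := (W.map N.mkQ).comap p
  have hfin : FiniteDimensional ℚ (W₁ ⊓ K' : Submodule ℚ ((Fin n → ℚ) × QB)) := by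
    let f : (W₁ ⊓ K' : Submodule ℚ ((Fin n → ℚ) × QB)) →ₗ[ℚ] (W.map N.mkQ) :=
      (p ∘ₗ (W₁ ⊓ K').subtype).codRestrict _ (fun x => x.2.1)
    have hf : Function.Injective f := by
      rw [← LinearMap.ker_eq_bot, LinearMap.ker_eq_bot']
      intro x hx
      have h3 : p x = 0 := congrArg Subtype.val hx
      apply Subtype.ext
      have := hK'.disjoint.le_bot (x := (x : (Fin n → ℚ) × QB)) ⟨LinearMap.mem_ker.2 h3, x.2.2⟩
      exact (Submodule.mem_bot ℚ).1 this
    exact FiniteDimensional.of_injective f hf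
  refine ⟨W₁ ⊓ K', hfin, fun m v hv i j => ?_⟩
  obtain ⟨w, hw, hwN⟩ := h1 m (fun _ => v) (fun _ => i) (fun _ => j) (fun _ => hv)
  have h3 : v i - v j ∈ W₁ := by
    refine ⟨w, hw, ?_⟩
    have h4 : N.mkQ (L (v i - v j) - w) = 0 := by
      rw [Submodule.mkQ_apply, Submodule.Quotient.mk_eq_zero, map_sub]
      exact hwN
    rw [map_sub, sub_eq_zero] at h4
    exact h4.symm
  have h4 : v i - v j ∈ LinearMap.ker p ⊔ K' := by
    rw [hK'.sup_eq_top]
    exact Submodule.mem_top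
  obtain ⟨a, ha, b, hb, hab⟩ := Submodule.mem_sup.1 h4
  have hb1 : b ∈ W₁ := by
    have : p b = p (v i - v j) := by
      rw [← hab, map_add, LinearMap.mem_ker.1 ha, zero_add]
    change p b ∈ W.map N.mkQ
    rw [this]
    exact h3
  refine ⟨b, ⟨hb1, hb⟩, ?_⟩
  have h5 : v i - v j - b = a := by
    rw [← hab]
    abel
  rw [h5]
  have h6 : π (fun _ => a) ∈ N := by
    have := LinearMap.mem_ker.1 ha
    rwa [LinearMap.comp_apply, Submodule.mkQ_apply, Submodule.Quotient.mk_eq_zero] at this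
  obtain ⟨k, -, hk⟩ := h2 _ h6 0
  exact hk

theorem bound (hX : AxStm) (hM : MaxStm) (hU : UltStm) : BoundStm := by
  classical
  intro n m
  by_contra hcon
  push Not at hcon
  choose z hz using hcon
  -- many differences
  have hS : ∀ k, ∃ S : Finset ((Fin n → ℚ) × QB), S.card = k + 1 ∧ (∀ d ∈ S, Df m (z k) d) ∧
      ∀ a ∈ S, ∀ b ∈ S, a ≠ b → ¬ IsAlgebraic ℚ (Mz (z k) (.ofAdd (a - b))) := by
    intro k
    refine many (k := k) (fun T hT => ?_) (k + 1) le_rfl
    obtain ⟨v, hv, i, j, h⟩ := hz k T hT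
    exact ⟨v, hv, i, j, h⟩
  choose S hS1 hS2 hS3 using hS
  -- the ultraproduct
  obtain ⟨G, _, _, π, N, W, hπ, hWfin, hdiff, hconst⟩ := core hX hM hU n z
  -- enumeration of `W`
  have hcount : Countable W := by
    let e := (Module.finBasis ℚ W).equivFun
    exact e.injective.countable
  obtain ⟨w, hw⟩ := exists_surjective_nat W
  choose ω hω using fun j => hπ (w j : G)
  -- diagonalisation
  have hd : ∀ k, ∃ d ∈ S k, ∀ j < k, ¬ IsAlgebraic ℚ (Mz (z k) (.ofAdd (d - ω j k))) := by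
    intro k
    by_contra hcon
    push Not at hcon
    choose f hf1 hf2 using fun (d : {d // d ∈ S k}) => hcon d.1 d.2
    obtain ⟨a, -, b, -, hab, h⟩ := Finset.exists_ne_map_eq_of_card_lt_of_maps_to
      (s := (Finset.univ : Finset {d // d ∈ S k})) (t := Finset.range k) (f := f) (by
        rw [Finset.card_range, Finset.card_univ, Fintype.card_coe, hS1]
        omega) (fun d _ => Finset.mem_coe.2 (Finset.mem_range.2 (hf1 d)))
    refine hS3 k a a.2 b b.2 (fun h => hab (Subtype.ext h)) ?_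
    have h1 := hf2 a
    rw [h] at h1
    exact alg_sub h1 (hf2 b)
  choose d hdS hd using hd
  choose v hv i j hij using fun k => hS2 k (d k) (hdS k)
  obtain ⟨x, hx, hxN⟩ := hdiff m v i j hv
  obtain ⟨p, hp⟩ := hw ⟨x, hx⟩
  have h1 : π (fun k => d k - ω p k) ∈ N := by
    have h2 : π (fun k => d k - ω p k) = π (fun k => v k (i k)) - π (fun k => v k (j k)) - π (ω p) := by
      rw [← map_sub, ← map_sub]
      congr 1
      funext k
      change d k - ω p k = v k (i k) - v k (j k) - ω p k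
      rw [hij]
    rw [h2, hω, hp]
    exact hxN
  obtain ⟨k, hk, hk'⟩ := hconst _ h1 (p + 1)
  exact hd k p (by omega) hk'

end Pool.Agent.W2helper76.FR
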